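import Pool.Agent.Helper58.R3.Stmts

/-! LYF: basic facts on the layers (MP_7ef5a1_co). -/

set_option autoImplicit false
open Classical

namespace Pool.Agent.Helper58.R3

theorem lyf_shift {m : ℕ} {Z : Finset (Fin m)} {ψ : Fin m → Fin m} {x : Fin m} {i j : ℕ}
    (h : Lay Z ψ (i + j) x) : Lay Z ψ j (ψ^[i] x) := by
  refine ⟨?_, fun t ht => ?_⟩
  · rw [← Function.iterate_add_apply, add_comm j i]
    exact h.1
  · rw [← Function.iterate_add_apply]
    exact h.2 (t + i) (by omega)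

theorem lyf_per {m : ℕ} {Z : Finset (Fin m)} {ψ : Fin m → Fin m} {x : Fin m}
    (h : Per Z ψ x) (i : ℕ) : Per Z ψ (ψ^[i] x) := by
  intro j
  rw [← Function.iterate_add_apply]
  exact h (j + i)

theorem lyf_uniq {m : ℕ} {Z : Finset (Fin m)} {ψ : Fin m → Fin m} {x : Fin m} {i j : ℕ}
    (hi : Lay Z ψ i x) (hj : Lay Z ψ j x) : i = j := by
  rcases lt_trichotomy i j with h | h | h
  · exact absurd hi.1 (hj.2 i h)
  · exact h
  · exact absurd hj.1 (hi.2 j h)

theorem lyf_adj {m : ℕ} {H : SimpleGraph (Fin m)} {v0 : Fin m} {Z : Finset (Fin m)}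
    {ψ : Fin m → Fin m} (we : WE H v0 Z ψ) {x y : Fin m} (hxy : H.Adj x y) :
    ∀ i : ℕ, (∀ t < i, ψ^[t] x ∉ Z ∨ ψ^[t] y ∉ Z) → H.Adj (ψ^[i] x) (ψ^[i] y) := by
  intro i
  induction i with
  | zero => exact fun _ => hxy
  | succ i ih =>
    intro h
    rw [Function.iterate_succ_apply', Function.iterate_succ_apply']
    refine we.hom _ _ (ih fun t ht => h t (by omega)) ?_
    rintro ⟨h1, h2⟩
    rcases h i (by omega) with h3 | h3
    · exact h3 h1
    · exact h3 h2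

theorem lyf_inj {m : ℕ} {H : SimpleGraph (Fin m)} {v0 : Fin m} {Z : Finset (Fin m)}
    {ψ : Fin m → Fin m} (we : WE H v0 Z ψ) {x y : Fin m} :
    ∀ i : ℕ, (∀ t < i, ψ^[t] x ∉ Z) → (∀ t < i, ψ^[t] y ∉ Z) → ψ^[i] x = ψ^[i] y → x = y := by
  intro i
  induction i with
  | zero => exact fun _ _ h => h
  | succ i ih =>
    intro hx hy h
    rw [Function.iterate_succ_apply', Function.iterate_succ_apply'] at h
    exact ih (fun t ht => hx t (by omega)) (fun t ht => hy t (by omega))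
      (we.inj _ _ (hx i (by omega)) (hy i (by omega)) h)

theorem lyf_nb {m : ℕ} {H : SimpleGraph (Fin m)} {v0 : Fin m} {Z : Finset (Fin m)}
    {ψ : Fin m → Fin m} (we : WE H v0 Z ψ) {x y : Fin m} {i : ℕ} (hx : Lay Z ψ i x)
    (hy : ψ^[i] y ∉ Z) (hxy : H.Adj x y) : ψ^[i] y ∈ nb H Z := by
  unfold nb
  rw [Finset.mem_filter]
  exact ⟨Finset.mem_univ _, hy, ψ^[i] x, hx.1, lyf_adj we hxy i fun t ht => Or.inl (hx.2 t ht)⟩

theorem st_LYF : ST_LYF := by
  intro m H v0 Z ψ k s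
  refine ⟨fun x => ?_, fun x i j => lyf_uniq, fun x i hi hp => hp i hi.1, fun x i j => lyf_shift,
    fun x i hp => lyf_per hp i, fun i hi => ?_, ?_, fun x y i => lyf_inj s.we i,
    fun x y i hxy => lyf_adj s.we hxy i, fun x y i j hx hy hij hxy => ?_,
    fun x y i hx hy hxy => ⟨lyf_nb s.we hx (hy i) hxy, lyf_per hy i⟩⟩
  · by_cases h : ∃ i, ψ^[i] x ∈ Z
    · exact Or.inl ⟨Nat.find h, Nat.find_spec h, fun j hj => Nat.find_min h hj⟩
    · exact Or.inr fun j hj => h ⟨j, hj⟩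
  · refine lyf_shift ?_
    have : i + (k - i) = k := by omega
    rw [this]
    exact s.kl
  · rw [Function.iterate_succ_apply']
    exact s.we.zv _ s.kl.1
  · refine ⟨lyf_nb s.we hx (hy.2 i hij) hxy, lyf_shift ?_⟩
    have : i + (j - i) = j := by omega
    rw [this]
    exact hy

end Pool.Agent.Helper58.R3
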